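import Pool.Agent.Helper52.CT.Fin

set_option autoImplicit false

open Pool.Agent.CliqueSharp.Final (S above)

namespace Pool.Agent.Results.MP_b34c1f_co.TopLayers

/-- The elements of `S n` which are at least `2 ^ (n - 1)` are the `n` numbers
`2 ^ (n - 1) + 2 ^ j - 1`, `0 ≤ j ≤ n - 1`.
For `1 ≤ k ≤ n` the number of elements of `S n` which are at least `2 ^ (n - k)` lies between
`(n / 4 ^ (k + 1)) ^ (2 ^ k - 1)` and `2 ^ (98 k³) (n + 1) ^ (2 ^ k - 1)`. -/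
theorem result :
    (∀ n : ℕ, 1 ≤ n → ∀ N : ℕ,
      (N ∈ S n ∧ 2 ^ (n - 1) ≤ N ↔ ∃ j < n, N + 1 = 2 ^ (n - 1) + 2 ^ j)) ∧
    (∀ k n : ℕ, 1 ≤ k → k ≤ n →
      ((n : ℝ) / 4 ^ (k + 1)) ^ (2 ^ k - 1) ≤ above n (2 ^ (n - k)) ∧
      (above n (2 ^ (n - k)) : ℝ) ≤ 2 ^ (98 * k ^ 3) * ((n : ℝ) + 1) ^ (2 ^ k - 1)) := by
  refine ⟨fun n hn N => Pool.Agent.Helper52.CT.top_half hn N, fun k n hk hkn => ⟨?_, ?_⟩⟩
  · exact Pool.Agent.Helper52.CT.lower_real hk hkn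
  · exact_mod_cast Pool.Agent.Helper52.CT.upper hk hkn

end Pool.Agent.Results.MP_b34c1f_co.TopLayers
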